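import Pool.Agent.helper74.VQ.SpecB

/-!
# MP_07c750_an, project VQ, row VYU: the unstable expansion is at most `C |det Y|`
-/

set_option autoImplicit false

open scoped MatrixGroups ContDiff Topology UpperHalfPlane ComplexConjugate ENNReal
open UpperHalfPlane MeasureTheory Filter Set

namespace Pool.Agent.VQ

open Pool.Agent.RS

theorem VYU_sq {x k : ℝ} (h : |x| ≤ k) : x ^ 2 ≤ k ^ 2 := by
  rw [← sq_abs x]
  exact pow_le_pow_left₀ (abs_nonneg x) h 2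

theorem VYU_quot {y r k : ℝ} (hy : |y| ≤ k) (hk : k ≤ 2 * r) (hr : 0 < r) :
    (y / (2 * r)) ^ 2 ≤ 1 := by
  have h1 : |y / (2 * r)| ≤ 1 := by
    rw [abs_div, abs_of_pos (by positivity : (0 : ℝ) < 2 * r)]
    exact div_le_one_of_le₀ (hy.trans hk) (by positivity)
  simpa using VYU_sq h1

theorem VYU_A (r n1 n2 k : ℝ) (hr : 4 / 5 ≤ r) (hr' : r ≤ 6 / 5) (hn1 : |n1| ≤ 1 / 10)
    (hn2 : |n2| ≤ 1 / 10) (hk : k * r = n2 / 2) :
    Real.sqrt (r ^ 2 + (-(k / 2 + -(k / 2))) ^ 2 +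
      ((n1 * r - n2 * (k / 2 + -(k / 2))) / (2 * r)) ^ 2 + (r * (k / 2 - -(k / 2))) ^ 2) ≤ 2 := by
  have h0 : k / 2 + -(k / 2) = 0 := by ring
  have h1 : r * (k / 2 - -(k / 2)) = n2 / 2 := by
    rw [← hk]
    ring
  rw [h0, h1, Real.sqrt_le_iff]
  refine ⟨by norm_num, ?_⟩
  have e1 : r ^ 2 ≤ (6 / 5) ^ 2 := pow_le_pow_left₀ (by linarith) hr' 2
  have e2 : ((n1 * r - n2 * 0) / (2 * r)) ^ 2 ≤ 1 := by
    refine VYU_quot (k := 1 / 10 * (6 / 5)) ?_ (by linarith) (by linarith)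
    rw [mul_zero, sub_zero, abs_mul]
    exact mul_le_mul hn1 (by rw [abs_of_nonneg (by linarith)]; exact hr') (abs_nonneg _)
      (by norm_num)
  have e3 : (n2 / 2) ^ 2 ≤ (1 / 20) ^ 2 := by
    refine VYU_sq ?_
    rw [abs_div, abs_of_pos (by norm_num : (0 : ℝ) < 2)]
    linarith
  generalize ((n1 * r - n2 * 0) / (2 * r)) ^ 2 = q at e2 ⊢
  generalize (n2 / 2) ^ 2 = q' at e3 ⊢
  generalize r ^ 2 = q'' at e1 ⊢
  norm_num at e1 e3 ⊢
  linarith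

theorem VYU_B (r n1 n2 x b c : ℝ) (hr : 4 / 5 ≤ r) (hr' : r ≤ 6 / 5) (hn1 : |n1| ≤ 1 / 10)
    (hn2 : |n2| ≤ 1 / 10) (hx : |x| ≤ 1) (hb : |b| ≤ 1) (hc : |c| ≤ 1) :
    Real.sqrt (x ^ 2 + (-(b + c)) ^ 2 + ((n1 * x - n2 * (b + c)) / (2 * r)) ^ 2 +
      (r * (b - c)) ^ 2) ≤ 4 := by
  rw [Real.sqrt_le_iff]
  refine ⟨by norm_num, ?_⟩
  have hbc : |b + c| ≤ 2 := (abs_add_le b c).trans (by linarith)
  have hbc' : |b - c| ≤ 2 := (abs_sub b c).trans (by linarith)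
  have e1 : x ^ 2 ≤ 1 ^ 2 := VYU_sq hx
  have e2 : (-(b + c)) ^ 2 ≤ 2 ^ 2 := VYU_sq (by rwa [abs_neg])
  have e3 : ((n1 * x - n2 * (b + c)) / (2 * r)) ^ 2 ≤ 1 := by
    refine VYU_quot (k := 1 / 10 * 1 + 1 / 10 * 2) ?_ (by linarith) (by linarith)
    refine (abs_sub _ _).trans (add_le_add ?_ ?_)
    · rw [abs_mul]
      exact mul_le_mul hn1 hx (abs_nonneg _) (by norm_num)
    · rw [abs_mul]
      exact mul_le_mul hn2 hbc (abs_nonneg _) (by norm_num)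
  have e4 : (r * (b - c)) ^ 2 ≤ (6 / 5 * 2) ^ 2 := by
    refine VYU_sq ?_
    rw [abs_mul]
    exact mul_le_mul (by rw [abs_of_nonneg (by linarith)]; exact hr') hbc' (abs_nonneg _)
      (by norm_num)
  generalize ((n1 * x - n2 * (b + c)) / (2 * r)) ^ 2 = q at e3 ⊢
  generalize (r * (b - c)) ^ 2 = q' at e4 ⊢
  generalize (-(b + c)) ^ 2 = q'' at e2 ⊢
  generalize x ^ 2 = q''' at e1 ⊢
  norm_num at e1 e2 e4 ⊢
  linarith

theorem VYU_proof (hVYC : VYC_stmt) (hVYV : VYV_stmt) (hVUB : VUB_stmt) : VYU_stmt := by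
  refine ⟨10, by norm_num, ?_⟩
  intro Γ δ B D hD hδ E g x b c hE hS hx hb hc t
  obtain ⟨h1, h2⟩ := hVYV Γ δ B D hD hδ E g hE
  have s1 := h1 _ _ _ h2
  have s2 := h1 x b c hS
  have key := hVYC Γ δ B D hD hδ E g _ _ _ _ hE s1 s2 t
  obtain ⟨-, hn, hr, -⟩ := hVUB Γ δ B D.U hD.pot hδ
  obtain ⟨r1, r2, -, -, -⟩ := hr E (D.fl E t g) hE
  obtain ⟨q1, q2, -, -, q5⟩ := hr E (D.fl E 0 g) hE
  obtain ⟨-, n1', n2', -⟩ := hn (D.fl E 0 g)
  have n1'' := n1'.trans hδ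
  have n2'' := n2'.trans hδ
  simp only [Matrix.cons_val_zero, Matrix.cons_val_one] at key
  have hA := VYU_A _ _ _ _ q1 q2 n1'' n2'' q5
  have hB := VYU_B _ _ _ (x 0) (b 0) (c 0) q1 q2 n1'' n2'' hx hb hc
  have hprod := mul_le_mul hA hB (Real.sqrt_nonneg _) (by norm_num)
  have h3 := key.trans (mul_le_mul_of_nonneg_left hprod (norm_nonneg _))
  have h4 : |rho D.U E (D.fl E t g) * -(b t + c t) -
      -(kap D.U E (D.fl E t g) / 2 + -(kap D.U E (D.fl E t g) / 2)) * x t| =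
      rho D.U E (D.fl E t g) * |b t + c t| := by
    rw [show rho D.U E (D.fl E t g) * -(b t + c t) -
      -(kap D.U E (D.fl E t g) / 2 + -(kap D.U E (D.fl E t g) / 2)) * x t =
      -(rho D.U E (D.fl E t g) * (b t + c t)) by ring, abs_neg, abs_mul,
      abs_of_nonneg (by linarith : 0 ≤ rho D.U E (D.fl E t g))]
  rw [h4] at h3
  have h5 : 4 / 5 * |b t + c t| ≤ rho D.U E (D.fl E t g) * |b t + c t| :=
    mul_le_mul_of_nonneg_right r1 (abs_nonneg _)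
  linarith

end Pool.Agent.VQ
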